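import Pool.Agent.helper19.MX.SpecA

/-!
# Project mx (MP_a875de_ag): row OP0
-/

namespace MX

open Pool.Agent.helper53.AU AN
open scoped Classical Topology
open Finset (range powerset Icc)

theorem OP0 (hHAD : HAD_stmt) (hHCB : HCB_stmt) : OP0_stmt := by
  intro L _ _ _ _ _ hHH θ b v r y hv hb1 hb0 hy
  -- the last equation
  have h1 : ∀ᶠ r' in 𝓝 r, ∃ y' : L, y' ^ 2 + y' = r' ^ 3 + θ := by
    have h := hHAD L hHH 1 (fun _ => 1) y (r ^ 3 + θ) (by
      rw [Finset.sum_range_succ, Finset.sum_range_one, ← hy]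
      ring) one_ne_zero Set.univ Filter.univ_mem
    have hc : Continuous (fun r' : L => ((fun _ => 1 : ℕ → L), r' ^ 3 + θ)) := by
      fun_prop
    have h2 := (hc.tendsto r).eventually h
    filter_upwards [h2] with r' hr'
    obtain ⟨y', -, hy'⟩ := hr'
    refine ⟨y', ?_⟩
    rw [Finset.sum_range_succ, Finset.sum_range_one] at hy'
    rw [← hy']
    ring
  -- the equation for `r`
  have h2 : ∀ᶠ q in 𝓝 (v, b 0), ∃ r' ∈ {r' : L | ∃ y' : L, y' ^ 2 + y' = r' ^ 3 + θ},
      q.2 = q.1 ^ 4 * (r' + r' ^ 4) := by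
    have h := hHAD L hHH 2 (fun j => if j = 1 then 0 else v ^ 4) r (b 0) (by
      rw [Finset.sum_range_succ, Finset.sum_range_succ, Finset.sum_range_one, hb0]
      norm_num
      ring) (by simpa using hv) _ h1
    have hc : Continuous (fun q : L × L => ((fun j => if j = 1 then 0 else q.1 ^ 4 : ℕ → L), q.2)) := by
      refine Continuous.prodMk ?_ continuous_snd
      refine continuous_pi fun j => ?_
      by_cases hj : j = 1
      · simp only [hj, if_true]
        exact continuous_const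
      · simp only [hj, if_false]
        fun_prop
    have h3 := (hc.tendsto (v, b 0)).eventually h
    filter_upwards [h3] with q hq
    obtain ⟨r', hr', hr''⟩ := hq
    refine ⟨r', hr', ?_⟩
    rw [Finset.sum_range_succ, Finset.sum_range_succ, Finset.sum_range_one] at hr''
    norm_num at hr''
    rw [← hr'']
    ring
  rw [nhds_prod_eq] at h2
  obtain ⟨A, hA, B, hB, hAB⟩ := Filter.eventually_prod_iff.1 h2
  have h3 : ∀ᶠ v' in 𝓝 v, v' ≠ 0 := isOpen_ne.mem_nhds hv
  have h4 := hHCB L hHH v hv _ (hA.and h3)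
  rw [← hb1] at h4
  have h5 : ∀ᶠ b' in 𝓝 b, ∃ v' ∈ {v' : L | A v' ∧ v' ≠ 0}, v' ^ 3 = b' 1 :=
    ((continuous_apply 1).tendsto b).eventually h4
  have h6 : ∀ᶠ b' in 𝓝 b, B (b' 0) := ((continuous_apply 0).tendsto b).eventually hB
  filter_upwards [h5, h6] with b' hb1' hb0'
  obtain ⟨v', ⟨hAv, hv0⟩, hv'⟩ := hb1'
  obtain ⟨r', ⟨y', hy'⟩, hr'⟩ := hAB hAv hb0'
  exact Cert.base b' v' r' y' hv0 hv'.symm hr' hy'

end MX
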