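import Pool.Agent.helper19.MX.SpecD

/-!
# Project mx (MP_a875de_ag): row RTR
-/

namespace MX

open Pool.Agent.helper53.AU AN
open scoped Classical Topology IntermediateField
open Finset (range powerset Icc)

theorem RTR_sum {k F : Type} [Field k] [Field F] [Algebra k F] (Q : Place k F) (f g : F)
    (hf : f ≠ 0) (hg : g ≠ 0) (hne : Q.ord f ≠ Q.ord g) (h : Q.Ge 0 (f + g)) :
    0 ≤ Q.ord f ∧ 0 ≤ Q.ord g := by
  rcases lt_or_gt_of_ne hne with h1 | h1
  · obtain ⟨h2, h3⟩ := Place.ord_add_eq (P := Q) (g := g) hf (Or.inr (by omega))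
    have h4 := h.le h2
    omega
  · obtain ⟨h2, h3⟩ := Place.ord_add_eq (P := Q) (g := f) hg (Or.inr (by omega))
    rw [add_comm] at h2 h3
    have h4 := h.le h2
    omega

theorem RTR (hQEL : QEL_stmt) : RTR_stmt := by
  intro k E F _ _ _ _ _ _ _ _ y φ P m Q hy htop hm hφ hP hQa hQb z u hz
  have hm1 : 1 ≤ m := hm.pos
  have hinj := (algebraMap E F).injective
  have h2E : (2 : E) = 0 := CharTwo.two_eq_zero
  have h2F : (2 : F) = 0 := by
    rw [← map_ofNat (algebraMap E F) 2, h2E, map_zero]
  have hy0 : y ≠ 0 := by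
    intro h0
    rw [h0, zero_pow two_ne_zero, add_zero] at hy
    exact hφ (hinj (by rw [← hy, map_zero]))
  have hφw : ∀ w : E, w ^ 2 + w ≠ φ := by
    intro w hw
    have hw0 : w ≠ 0 := by
      rintro rfl
      apply hφ
      rw [← hw]
      ring
    rcases lt_or_ge (P.ord w) 0 with h0 | h0
    · have h1 : P.ord (w ^ 2) = 2 * P.ord w := by
        rw [P.ord_pow hw0]
        norm_num
      obtain ⟨-, h3⟩ := Place.ord_add_eq (P := P) (g := w) (pow_ne_zero 2 hw0)
        (Or.inr (by rw [h1]; omega))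
      rw [hw, hP, h1] at h3
      obtain ⟨t, ht⟩ := hm
      omega
    · have h1 : P.Ge 0 (w ^ 2 + w) := by
        have h2 : P.Ge 0 w := Or.inr h0
        have h3 := h2.pow 2
        rw [mul_zero] at h3
        exact h3.add h2
      have h4 := h1.le (by rw [hw]; exact hφ)
      rw [hw, hP] at h4
      omega
  obtain ⟨-, hel, -⟩ := hQEL E F y φ hy htop hφw
  obtain ⟨a, b, hu⟩ := hel u
  set A : E := z + a ^ 2 + a + b ^ 2 * φ with hA
  set B : E := b ^ 2 + b with hB
  have hAB : algebraMap E F z + u ^ 2 + u = algebraMap E F A + algebraMap E F B * y := by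
    rw [hu, hA, hB]
    simp only [map_add, map_mul, map_pow]
    linear_combination (algebraMap E F b ^ 2) * hy +
      (algebraMap E F a * algebraMap E F b * y - algebraMap E F b ^ 2 * y) * h2F
  rw [hAB] at hz
  -- the case `B = 0`
  by_cases hB0 : B = 0
  · rw [hB0, map_zero, zero_mul, add_zero] at hz
    have hAr : P.Ge 0 A := by
      by_cases hA0 : A = 0
      · exact Or.inl hA0
      · right
        have h1 := hz.le (by rw [Ne, map_eq_zero_iff _ hinj]; exact hA0)
        rw [hQa] at h1
        omega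
    have hb : b = 0 ∨ b = 1 := by
      have h1 : b * (b + 1) = 0 := by
        rw [← hB0, hB]
        ring
      rcases mul_eq_zero.1 h1 with h | h
      · exact Or.inl h
      · right
        linear_combination h - h2E
    have hb2 : b ^ 2 = b := by
      rcases hb with h | h <;> rw [h] <;> norm_num
    refine ⟨b, a, hb, ?_⟩
    rw [hA, hb2] at hAr
    exact hAr
  · -- the case `B ≠ 0`
    have hord : (A = 0 ∨ 0 ≤ P.ord A) ∧ (m : ℤ) ≤ 2 * P.ord B := by
      have hBy : algebraMap E F B * y ≠ 0 :=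
        mul_ne_zero (by rw [Ne, map_eq_zero_iff _ hinj]; exact hB0) hy0
      have hBo := hQb B hB0
      by_cases hA0 : A = 0
      · rw [hA0, map_zero, zero_add] at hz
        have h1 := hz.le hBy
        exact ⟨Or.inl hA0, by omega⟩
      · have hA1 : algebraMap E F A ≠ 0 := by rw [Ne, map_eq_zero_iff _ hinj]; exact hA0
        have hne : Q.ord (algebraMap E F A) ≠ Q.ord (algebraMap E F B * y) := by
          rw [hQa, hBo]
          obtain ⟨t, ht⟩ := hm
          omega
        obtain ⟨h3, h4⟩ := RTR_sum Q _ _ hA1 hBy hne hz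
        rw [hQa] at h3
        rw [hBo] at h4
        exact ⟨Or.inr (by omega), by omega⟩
    obtain ⟨hAr, hBm⟩ := hord
    have hb0 : b ≠ 0 := by
      rintro rfl
      apply hB0
      rw [hB]
      ring
    have hb1 : b + 1 ≠ 0 := by
      intro h
      apply hB0
      rw [hB]
      linear_combination b * h
    have hBb : B = b * (b + 1) := by
      rw [hB]
      ring
    have hBo : P.ord b + P.ord (b + 1) = P.ord B := by
      rw [hBb, P.ord_mul b (b + 1) hb0 hb1]
    have hex : ∃ ε : E, (ε = 0 ∨ ε = 1) ∧ b + ε ≠ 0 ∧ P.ord (b + ε) = P.ord B := by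
      rcases lt_trichotomy (P.ord b) 0 with h | h | h
      · obtain ⟨-, h3⟩ := Place.ord_add_eq (P := P) (g := (1 : E)) hb0
          (Or.inr (by rw [P.ord_one]; omega))
        omega
      · exact ⟨1, Or.inr rfl, hb1, by omega⟩
      · obtain ⟨-, h3⟩ := Place.ord_add_eq (P := P) (f := (1 : E)) (g := b) one_ne_zero
          (Or.inr (by rw [P.ord_one]; omega))
        rw [P.ord_one, add_comm] at h3
        refine ⟨0, Or.inl rfl, by rw [add_zero]; exact hb0, ?_⟩
        rw [add_zero]
        omega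
    obtain ⟨ε, hε, hbε, hbo⟩ := hex
    have hε2 : ε ^ 2 = ε := by
      rcases hε with h | h <;> rw [h] <;> norm_num
    refine ⟨ε, a, hε, ?_⟩
    have h5 : z + a ^ 2 + a + ε * φ = A - (b + ε) ^ 2 * φ := by
      rw [hA]
      linear_combination (φ * ε + b * ε * φ) * h2E + φ * hε2
    rw [h5]
    refine Place.Ge.sub hAr (Or.inr ?_)
    rw [P.ord_mul _ _ (pow_ne_zero 2 hbε) hφ, P.ord_pow hbε, hP, hbo]
    push_cast
    omega

end MX
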